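import Mathlib

set_option autoImplicit false

namespace Pool.Agent.H.MP_064e41_al

open Finset

/-- relations of the symbol algebra: `x^p = a`, `y^p = b`, `y x = w x y` -/
inductive SymRel (F : Type) [Field F] (p : ℕ) (w a b : F) :
    FreeAlgebra F (Fin 2) → FreeAlgebra F (Fin 2) → Prop
  | xp : SymRel F p w a b (FreeAlgebra.ι F 0 ^ p) (algebraMap F _ a)
  | yp : SymRel F p w a b (FreeAlgebra.ι F 1 ^ p) (algebraMap F _ b)
  | yx : SymRel F p w a b (FreeAlgebra.ι F 1 * FreeAlgebra.ι F 0)
      (w • (FreeAlgebra.ι F 0 * FreeAlgebra.ι F 1))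

/-- the symbol algebra -/
abbrev Sym (F : Type) [Field F] (p : ℕ) (w a b : F) : Type := RingQuot (SymRel F p w a b)

variable {F : Type} [Field F] (w a b : F)

/-- first generator -/
def xx : Sym F 5 w a b := RingQuot.mkAlgHom F (SymRel F 5 w a b) (FreeAlgebra.ι F 0)

/-- second generator -/
def yy : Sym F 5 w a b := RingQuot.mkAlgHom F (SymRel F 5 w a b) (FreeAlgebra.ι F 1)

theorem xx5 : xx w a b ^ 5 = algebraMap F _ a := by
  have := RingQuot.mkAlgHom_rel F (SymRel.xp (F := F) (p := 5) (w := w) (a := a) (b := b))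
  rwa [map_pow, AlgHom.commutes] at this

theorem yy5 : yy w a b ^ 5 = algebraMap F _ b := by
  have := RingQuot.mkAlgHom_rel F (SymRel.yp (F := F) (p := 5) (w := w) (a := a) (b := b))
  rwa [map_pow, AlgHom.commutes] at this

theorem yyxx : yy w a b * xx w a b = w • (xx w a b * yy w a b) := by
  have := RingQuot.mkAlgHom_rel F (SymRel.yx (F := F) (p := 5) (w := w) (a := a) (b := b))
  rwa [map_mul, map_smul, map_mul] at this

theorem y_xpow (i : ℕ) : yy w a b * xx w a b ^ i = w ^ i • (xx w a b ^ i * yy w a b) := by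
  induction i with
  | zero => simp
  | succ i ih =>
    rw [pow_succ, ← mul_assoc, ih, smul_mul_assoc, mul_assoc, yyxx, mul_smul_comm, smul_smul,
      ← mul_assoc, pow_succ w]

theorem ypow_xpow (j i : ℕ) :
    yy w a b ^ j * xx w a b ^ i = w ^ (j * i) • (xx w a b ^ i * yy w a b ^ j) := by
  induction j with
  | zero => simp
  | succ j ih =>
    rw [pow_succ', mul_assoc, ih, mul_smul_comm, ← mul_assoc, y_xpow, smul_mul_assoc, smul_smul,
      mul_assoc, ← pow_add, add_mul, one_mul]

/-- monomials -/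
def mm (t : ℕ × ℕ) : Sym F 5 w a b := xx w a b ^ t.1 * yy w a b ^ t.2

theorem mm_mul (s t : ℕ × ℕ) : mm w a b s * mm w a b t = w ^ (s.2 * t.1) • mm w a b (s + t) := by
  unfold mm
  rw [mul_assoc, ← mul_assoc (yy w a b ^ s.2), ypow_xpow, smul_mul_assoc, mul_smul_comm,
    Prod.fst_add, Prod.snd_add, pow_add, pow_add]
  simp only [mul_assoc]

/-- basis monomials -/
def bas (t : Fin 5 × Fin 5) : Sym F 5 w a b := mm w a b (t.1, t.2)

theorem mm_eq (t : ℕ × ℕ) : mm w a b t = (a ^ (t.1 / 5) * b ^ (t.2 / 5)) •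
    bas w a b (⟨t.1 % 5, Nat.mod_lt _ (by norm_num)⟩, ⟨t.2 % 5, Nat.mod_lt _ (by norm_num)⟩) := by
  unfold bas mm
  conv_lhs => rw [← Nat.div_add_mod t.1 5, ← Nat.div_add_mod t.2 5, pow_add, pow_add, pow_mul,
    pow_mul, xx5, yy5, ← map_pow, ← map_pow, ← Algebra.smul_def, ← Algebra.smul_def]
  rw [smul_mul_assoc, mul_smul_comm, smul_smul]

theorem span_mm : Submodule.span F (Set.range (mm w a b)) = ⊤ := by
  rw [eq_top_iff]
  intro z _
  obtain ⟨u, rfl⟩ := RingQuot.mkAlgHom_surjective F (SymRel F 5 w a b) z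
  induction u using FreeAlgebra.induction with
  | grade0 c =>
    rw [AlgHom.commutes, Algebra.algebraMap_eq_smul_one]
    exact Submodule.smul_mem _ _ (Submodule.subset_span ⟨(0, 0), by simp [mm]⟩)
  | grade1 i =>
    fin_cases i
    · exact Submodule.subset_span ⟨(1, 0), by simp [mm, xx]⟩
    · exact Submodule.subset_span ⟨(0, 1), by simp [mm, yy]⟩
  | mul u v hu hv =>
    rw [map_mul]
    have := Submodule.mul_mem_mul (hu trivial) (hv trivial)
    rw [Submodule.span_mul_span] at this
    refine Submodule.span_le.2 ?_ this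
    rintro _ ⟨_, ⟨s, rfl⟩, _, ⟨t, rfl⟩, rfl⟩
    simp only [mm_mul]
    exact Submodule.smul_mem _ _ (Submodule.subset_span ⟨_, rfl⟩)
  | add u v hu hv =>
    rw [map_add]
    exact Submodule.add_mem _ (hu trivial) (hv trivial)

theorem span_bas : ⊤ ≤ Submodule.span F (Set.range (bas w a b)) := by
  rw [← span_mm w a b, Submodule.span_le]
  rintro _ ⟨t, rfl⟩
  rw [mm_eq]
  exact Submodule.smul_mem _ _ (Submodule.subset_span ⟨_, rfl⟩)

/-- regular representation, first generator -/
def XX : Module.End F (Fin 5 → Fin 5 → F) where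
  toFun f := fun i j => (if i = 0 then a else 1) * f (i - 1) j
  map_add' f g := by
    funext i j
    simp [mul_add]
  map_smul' c f := by
    funext i j
    simp [mul_left_comm]

/-- regular representation, second generator -/
def YY : Module.End F (Fin 5 → Fin 5 → F) where
  toFun f := fun i j => w ^ (i : ℕ) * (if j = 0 then b else 1) * f i (j - 1)
  map_add' f g := by
    funext i j
    simp [mul_add]
  map_smul' c f := by
    funext i j
    simp [mul_left_comm]

theorem XX_apply (f : Fin 5 → Fin 5 → F) (i j : Fin 5) :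
    XX a f i j = (if i = 0 then a else 1) * f (i - 1) j := rfl

theorem YY_apply (f : Fin 5 → Fin 5 → F) (i j : Fin 5) :
    YY w b f i j = w ^ (i : ℕ) * (if j = 0 then b else 1) * f i (j - 1) := rfl

theorem cyc5 (c : F) (i : Fin 5) : (if i = 0 then c else 1) * (if i - 1 = 0 then c else 1) *
    (if i - 1 - 1 = 0 then c else 1) * (if i - 1 - 1 - 1 = 0 then c else 1) *
    (if i - 1 - 1 - 1 - 1 = 0 then c else 1) = c := by
  fin_cases i <;> simp +decide

theorem sub5 : ∀ i : Fin 5, i - 1 - 1 - 1 - 1 - 1 = i := by decide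

theorem ind_bas (hw : w ^ 5 = 1) : LinearIndependent F (bas w a b) := by
  let g : Fin 2 → Module.End F (Fin 5 → Fin 5 → F) := ![XX a, YY w b]
  have hg : ∀ ⦃u v⦄, SymRel F 5 w a b u v → FreeAlgebra.lift F g u = FreeAlgebra.lift F g v := by
    intro u v h
    cases h with
    | xp =>
      rw [map_pow, AlgHom.commutes, FreeAlgebra.lift_ι_apply]
      refine LinearMap.ext fun f => funext fun i => funext fun j => ?_
      simp only [g, pow_succ, pow_zero, one_mul, Module.End.mul_apply, Matrix.cons_val_zero,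
        XX_apply, Module.algebraMap_end_apply, Pi.smul_apply, smul_eq_mul, sub5]
      linear_combination f i j * cyc5 a i
    | yp =>
      rw [map_pow, AlgHom.commutes, FreeAlgebra.lift_ι_apply]
      refine LinearMap.ext fun f => funext fun i => funext fun j => ?_
      simp only [g, pow_succ, pow_zero, one_mul, Module.End.mul_apply, Matrix.cons_val_one,
        Matrix.cons_val_zero, YY_apply, Module.algebraMap_end_apply, Pi.smul_apply, smul_eq_mul,
        sub5]
      have h5 : (w ^ (i : ℕ)) ^ 5 = 1 := by rw [← pow_mul, mul_comm, pow_mul, hw, one_pow]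
      linear_combination f i j * (w ^ (i : ℕ)) ^ 5 * cyc5 b j + f i j * b * h5
    | yx =>
      rw [map_mul, map_smul, map_mul, FreeAlgebra.lift_ι_apply, FreeAlgebra.lift_ι_apply]
      refine LinearMap.ext fun f => funext fun i => funext fun j => ?_
      simp only [g, Module.End.mul_apply, Matrix.cons_val_one, LinearMap.smul_apply,
        Matrix.cons_val_zero, YY_apply, XX_apply, Pi.smul_apply, smul_eq_mul]
      have h1 : w ^ (i : ℕ) = w * w ^ ((i - 1 : Fin 5) : ℕ) := by
        have h2 : ∀ i : Fin 5, (i : ℕ) = (i - 1 : Fin 5) + 1 ∨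
          ((i : ℕ) = 0 ∧ ((i - 1 : Fin 5) : ℕ) = 4) := by decide
        rcases h2 i with h | ⟨h, h'⟩
        · rw [h, pow_succ']
        · rw [h, h', ← pow_succ', hw, pow_zero]
      rw [h1]
      ring
  let ρ : Sym F 5 w a b →ₐ[F] Module.End F (Fin 5 → Fin 5 → F) :=
    RingQuot.liftAlgHom F ⟨FreeAlgebra.lift F g, hg⟩
  have hx : ρ (xx w a b) = XX a := by simp [ρ, xx, g]
  have hy : ρ (yy w a b) = YY w b := by simp [ρ, yy, g]
  let d : Fin 5 → Fin 5 → Fin 5 → Fin 5 → F := fun s t i j => if i = s ∧ j = t then 1 else 0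
  have h1 : ∀ t : Fin 5, (YY w b ^ (t : ℕ)) (d 0 0) = d 0 t := by
    intro t
    funext i j
    fin_cases t <;> fin_cases j <;> by_cases h : i = 0 <;>
      simp +decide [pow_succ, YY_apply, d, h]
  have h2 : ∀ s t : Fin 5, (XX a ^ (s : ℕ)) (d 0 t) = d s t := by
    intro s t
    funext i j
    fin_cases s <;> fin_cases i <;> simp +decide [pow_succ, XX_apply, d]
  rw [Fintype.linearIndependent_iff]
  intro c hc ⟨s, t⟩
  have := congrArg (fun z => ρ z (d 0 0) s t) hc
  simp only [map_sum, map_smul, bas, mm, map_mul, map_pow, hx, hy, LinearMap.sum_apply,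
    LinearMap.smul_apply, Module.End.mul_apply, h1, h2, Finset.sum_apply, Pi.smul_apply,
    smul_eq_mul, map_zero, LinearMap.zero_apply, Pi.zero_apply] at this
  rw [Finset.sum_eq_single (s, t)] at this
  · simpa [d] using this
  · intro u _ hne
    have : ¬ (s = u.1 ∧ t = u.2) := fun h => hne (Prod.ext h.1.symm h.2.symm)
    simp [d, this]
  · simp

end Pool.Agent.H.MP_064e41_al
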