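import Pool.Agent.H.MP_064e41_al.A

set_option autoImplicit false

namespace Pool.Agent.H.MP_064e41_al

open Finset

section G

variable {F : Type} [Field F] {w a b : F}

theorem fd : FiniteDimensional F (Sym F 5 w a b) :=
  ⟨⟨(Set.finite_range (bas w a b)).toFinset, by
    rw [Set.Finite.coe_toFinset]
    exact eq_top_iff.2 (span_bas w a b)⟩⟩

theorem rank25 (hw : w ^ 5 = 1) : Module.finrank F (Sym F 5 w a b) = 25 := by
  rw [Module.finrank_eq_card_basis (Module.Basis.mk (ind_bas w a b hw) (span_bas w a b))]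
  simp

theorem mm10 : mm w a b (1, 0) = xx w a b := by simp [mm]

theorem mm01 : mm w a b (0, 1) = yy w a b := by simp [mm]

theorem unit_of_pow {z : Sym F 5 w a b} {c : F} (hc : c ≠ 0) (h : z ^ 5 = algebraMap F _ c) :
    IsUnit z := by
  rw [← isUnit_pow_iff (n := 5) (by norm_num), h]
  exact (IsUnit.mk0 c hc).map _

theorem central (hw : IsPrimitiveRoot w 5) (ha : a ≠ 0) (hb : b ≠ 0) :
    Algebra.IsCentral F (Sym F 5 w a b) := by
  refine ⟨fun z hz => ?_⟩
  rw [Subalgebra.mem_center_iff] at hz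
  have hi := Fintype.linearIndependent_iff.1 (ind_bas w a b hw.pow_eq_one)
  obtain ⟨c, rfl⟩ := (Submodule.mem_span_range_iff_exists_fun F).1
    (span_bas w a b (Submodule.mem_top (x := z)))
  have h1 : ∀ t : Fin 5 × Fin 5, yy w a b * bas w a b t =
      w ^ (t.1 : ℕ) • (bas w a b t * yy w a b) := by
    intro t
    simp only [bas, ← mm01, mm_mul, one_mul, mul_zero, pow_zero, one_smul]
    rw [add_comm]
  have h2 : ∀ t : Fin 5 × Fin 5, bas w a b t * xx w a b =
      w ^ (t.2 : ℕ) • (xx w a b * bas w a b t) := by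
    intro t
    simp only [bas, ← mm10, mm_mul, mul_one, zero_mul, pow_zero, one_smul]
    rw [add_comm]
  have e1 : ∀ t, c t * (w ^ (t.1 : ℕ) - 1) = 0 := by
    refine hi (fun t => c t * (w ^ (t.1 : ℕ) - 1)) ?_
    apply (unit_of_pow hb (yy5 w a b)).mul_right_cancel
    have := hz (yy w a b)
    rw [Finset.mul_sum, Finset.sum_mul, ← sub_eq_zero, ← Finset.sum_sub_distrib] at this
    rw [zero_mul, Finset.sum_mul, ← this]
    refine Finset.sum_congr rfl fun t _ => ?_
    rw [mul_smul_comm, h1, smul_mul_assoc, smul_mul_assoc, smul_smul, mul_sub, mul_one, sub_smul]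
  have e2 : ∀ t, c t * (w ^ (t.2 : ℕ) - 1) = 0 := by
    refine hi (fun t => c t * (w ^ (t.2 : ℕ) - 1)) ?_
    apply (unit_of_pow ha (xx5 w a b)).mul_left_cancel
    have := (hz (xx w a b)).symm
    rw [Finset.mul_sum, Finset.sum_mul, ← sub_eq_zero, ← Finset.sum_sub_distrib] at this
    rw [mul_zero, Finset.mul_sum, ← this]
    refine Finset.sum_congr rfl fun t _ => ?_
    rw [smul_mul_assoc, h2, mul_smul_comm, mul_smul_comm, smul_smul, mul_sub, mul_one, sub_smul]
  have e3 : ∀ i : Fin 5, w ^ (i : ℕ) - 1 = 0 → i = 0 := by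
    intro i h
    have := (hw.pow_eq_one_iff_dvd _).1 (sub_eq_zero.1 h)
    omega
  rw [Finset.sum_eq_single (0, 0)]
  · exact Subalgebra.smul_mem _ (by simp [bas, mm]) _
  · intro t _ hne
    have : c t = 0 := by
      by_contra hc
      exact hne (Prod.ext (e3 _ ((mul_eq_zero.1 (e1 t)).resolve_left hc))
        (e3 _ ((mul_eq_zero.1 (e2 t)).resolve_left hc)))
    rw [this, zero_smul]
  · simp

/-- graded strips -/
def UU (w a b : F) (lo hi : ℕ) : Submodule F (Sym F 5 w a b) :=
  Submodule.span F (mm w a b '' {t | lo ≤ t.1 ∧ t.1 ≤ hi})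

theorem UU_mul {l h l' h' : ℕ} {u v : Sym F 5 w a b} (hu : u ∈ UU w a b l h)
    (hv : v ∈ UU w a b l' h') : u * v ∈ UU w a b (l + l') (h + h') := by
  have := Submodule.mul_mem_mul hu hv
  unfold UU at this
  rw [Submodule.span_mul_span] at this
  refine Submodule.span_le.2 ?_ this
  rintro _ ⟨_, ⟨s, hs, rfl⟩, _, ⟨t, ht, rfl⟩, rfl⟩
  simp only [mm_mul]
  refine Submodule.smul_mem _ _ (Submodule.subset_span ⟨_, ?_, rfl⟩)
  simp only [Set.mem_setOf_eq, Prod.fst_add] at *
  omega

theorem tr_zero (hw : IsPrimitiveRoot w 5) (hb : b ≠ 0) {M : Type} [AddCommGroup M] [Module F M]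
    (τ : Sym F 5 w a b →ₗ[F] M) (hτ : ∀ u v, τ (u * v) = τ (v * u)) {u : Sym F 5 w a b}
    (hu : u ∈ UU w a b 6 9) : τ u = 0 := by
  have : UU w a b 6 9 ≤ LinearMap.ker τ := by
    refine Submodule.span_le.2 ?_
    rintro _ ⟨t, ht, rfl⟩
    have h1 := hτ (mm w a b (0, 1)) (mm w a b (t + (0, 4)))
    have h2 : mm w a b (t + (0, 4) + (0, 1)) = b • mm w a b t := by
      simp only [mm, Prod.fst_add, Prod.snd_add, add_zero, add_assoc]
      rw [pow_add, yy5, ← mul_assoc, ← Algebra.commutes, ← Algebra.smul_def]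
    rw [mm_mul, mm_mul, add_comm ((0, 1) : ℕ × ℕ), h2] at h1
    simp only [Prod.fst_add, add_zero, one_mul, mul_zero, pow_zero, one_smul, map_smul,
      smul_smul] at h1
    rw [← sub_eq_zero, ← sub_smul, smul_eq_zero] at h1
    refine h1.resolve_left fun h => ?_
    have h3 : w ^ t.1 = 1 := by
      apply mul_right_cancel₀ hb
      rw [one_mul]
      exact sub_eq_zero.1 h
    have := (hw.pow_eq_one_iff_dvd _).1 h3
    simp only [Set.mem_setOf_eq] at ht
    omega
  exact this hu

theorem ex_V (hw : w ^ 5 = 1) : ∃ V : Submodule F (Sym F 5 w a b), Module.finrank F V = 10 ∧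
    ∀ v ∈ V, v ^ 3 ∈ UU w a b 6 9 := by
  let e : Fin 2 × Fin 5 → Fin 5 × Fin 5 := fun t => (![2, 3] t.1, t.2)
  have he : Function.Injective e := by decide
  refine ⟨Submodule.span F (Set.range (bas w a b ∘ e)), ?_, fun v hv => ?_⟩
  · rw [finrank_span_eq_card ((ind_bas w a b hw).comp e he)]
    simp
  · have h : v ∈ UU w a b 2 3 := by
      refine Submodule.span_le.2 ?_ hv
      rintro _ ⟨⟨i, j⟩, rfl⟩
      refine Submodule.subset_span ⟨_, ?_, rfl⟩
      fin_cases i <;> simp [e]
    have h2 : v * v ∈ UU w a b (2 + 2) (3 + 3) := UU_mul h h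
    have h3 : v * v * v ∈ UU w a b (2 + 2 + 2) (3 + 3 + 3) := UU_mul h2 h
    rw [pow_succ, pow_two]
    norm_num only at h3
    exact h3

end G

/-- the rational function field in two variables -/
abbrev FF (k : Type) [Field k] : Type := FractionRing (MvPolynomial (Fin 2) k)

/-- the generic symbol algebra of degree `p` -/
abbrev Gen (k : Type) [Field k] (p : ℕ) (ω : k) : Type :=
  Sym (FF k) p (algebraMap k (FF k) ω) (algebraMap (MvPolynomial (Fin 2) k) (FF k) (.X 0))
    (algebraMap (MvPolynomial (Fin 2) k) (FF k) (.X 1))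

variable {k : Type} [Field k] (ω : k)

/-- monomials of the generic algebra -/
noncomputable abbrev gm : ℕ × ℕ → Gen k 5 ω := mm _ _ _

theorem gm_ind (hw : ω ^ 5 = 1) : LinearIndependent k (gm ω) := by
  have h1 : LinearIndependent k fun d : Fin 2 →₀ ℕ =>
      algebraMap (MvPolynomial (Fin 2) k) (FF k) (MvPolynomial.monomial d 1) := by
    have := (MvPolynomial.basisMonomials (Fin 2) k).linearIndependent.map'
      (IsScalarTower.toAlgHom k (MvPolynomial (Fin 2) k) (FF k)).toLinearMap
      (LinearMap.ker_eq_bot.2 (IsFractionRing.injective _ _))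
    simpa [Function.comp_def] using this
  have h2 := linearIndependent_smul h1 (ind_bas (algebraMap k (FF k) ω)
    (algebraMap (MvPolynomial (Fin 2) k) (FF k) (.X 0))
    (algebraMap (MvPolynomial (Fin 2) k) (FF k) (.X 1)) (by rw [← map_pow, hw, map_one]))
  let e : ℕ × ℕ → (Fin 2 →₀ ℕ) × (Fin 5 × Fin 5) := fun t =>
    (Finsupp.single 0 (t.1 / 5) + Finsupp.single 1 (t.2 / 5),
      (⟨t.1 % 5, Nat.mod_lt _ (by norm_num)⟩, ⟨t.2 % 5, Nat.mod_lt _ (by norm_num)⟩))
  have he : Function.Injective e := by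
    intro s t h
    simp only [e, Prod.mk.injEq, Fin.mk.injEq] at h
    have h3 := DFunLike.congr_fun h.1 0
    have h4 := DFunLike.congr_fun h.1 1
    simp at h3 h4
    ext <;> omega
  convert h2.comp e he using 1
  funext t
  simp only [gm, Function.comp, e]
  rw [mm_eq, ← map_pow, ← map_pow, ← map_mul, MvPolynomial.X_pow_eq_monomial,
    MvPolynomial.X_pow_eq_monomial, MvPolynomial.monomial_mul, one_mul]

theorem gm_mul (s t : ℕ × ℕ) : gm ω s * gm ω t = ω ^ (s.2 * t.1) • gm ω (s + t) := by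
  rw [mm_mul, ← map_pow, algebraMap_smul]

theorem phi_mul (hw : ω ^ 5 = 1) (f g : ℕ × ℕ →₀ k) (hf : f ≠ 0) (hg : g ≠ 0) :
    Finsupp.linearCombination k (gm ω) f * Finsupp.linearCombination k (gm ω) g ≠ 0 := by
  classical
  have hω : ω ≠ 0 := by
    rintro rfl
    simp at hw
  obtain ⟨s0, hs0, t0, ht0, hu⟩ := UniqueSums.uniqueAdd_of_nonempty
    (Finsupp.support_nonempty_iff.2 hf) (Finsupp.support_nonempty_iff.2 hg)
  have e : Finsupp.linearCombination k (gm ω) f * Finsupp.linearCombination k (gm ω) g =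
      Finsupp.linearCombination k (gm ω) (∑ s ∈ f.support, ∑ t ∈ g.support,
        Finsupp.single (s + t) (f s * g t * ω ^ (s.2 * t.1))) := by
    simp only [map_sum, Finsupp.linearCombination_single]
    rw [Finsupp.linearCombination_apply, Finsupp.linearCombination_apply, Finsupp.sum,
      Finsupp.sum, Finset.sum_mul_sum]
    refine Finset.sum_congr rfl fun s _ => Finset.sum_congr rfl fun t _ => ?_
    rw [smul_mul_smul_comm, gm_mul, smul_smul]
  rw [e]
  intro h
  have h1 := DFunLike.congr_fun (linearIndependent_iff.1 (gm_ind ω hw) _ h) (s0 + t0)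
  rw [Finsupp.finset_sum_apply, Finset.sum_eq_single s0, Finsupp.finset_sum_apply,
    Finset.sum_eq_single t0] at h1
  · simp only [Finsupp.single_eq_same, Finsupp.coe_zero, Pi.zero_apply, mul_eq_zero,
      pow_eq_zero_iff', hω, false_and, or_false] at h1
    exact h1.elim (Finsupp.mem_support_iff.1 hs0) (Finsupp.mem_support_iff.1 ht0)
  · intro t ht hne
    exact Finsupp.single_eq_of_ne fun h => hne (hu hs0 ht h.symm).2
  · exact fun h => absurd ht0 h
  · intro s hs hne
    rw [Finsupp.finset_sum_apply]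
    exact Finset.sum_eq_zero fun t ht =>
      Finsupp.single_eq_of_ne fun h => hne (hu hs ht h.symm).1
  · exact fun h => absurd hs0 h

theorem poly_smul (q : MvPolynomial (Fin 2) k) {z : Gen k 5 ω}
    (hz : z ∈ Submodule.span k (Set.range (gm ω))) :
    algebraMap _ (FF k) q • z ∈ Submodule.span k (Set.range (gm ω)) := by
  have hm : ∀ (s : ℕ × ℕ) {z : Gen k 5 ω}, z ∈ Submodule.span k (Set.range (gm ω)) →
      gm ω s * z ∈ Submodule.span k (Set.range (gm ω)) := by
    intro s z hz
    have : Submodule.span k (Set.range (gm ω)) ≤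
        (Submodule.span k (Set.range (gm ω))).comap (LinearMap.mulLeft k (gm ω s)) := by
      rw [Submodule.span_le]
      rintro _ ⟨t, rfl⟩
      simp only [SetLike.mem_coe, Submodule.mem_comap, LinearMap.mulLeft_apply, gm_mul]
      exact Submodule.smul_mem _ _ (Submodule.subset_span ⟨_, rfl⟩)
    exact this hz
  induction q using MvPolynomial.induction_on generalizing z with
  | C c =>
    rw [← MvPolynomial.algebraMap_eq, ← IsScalarTower.algebraMap_apply, algebraMap_smul]
    exact Submodule.smul_mem _ _ hz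
  | add p q hp hq =>
    rw [map_add, add_smul]
    exact Submodule.add_mem _ (hp hz) (hq hz)
  | mul_X p i hp =>
    rw [map_mul, mul_smul]
    apply hp
    fin_cases i
    · have := hm (5, 0) hz
      simp only [gm, mm, xx5, pow_zero, mul_one, ← Algebra.smul_def] at this
      exact this
    · have := hm (0, 5) hz
      simp only [gm, mm, yy5, pow_zero, one_mul, ← Algebra.smul_def] at this
      exact this

theorem clear_den (z : Gen k 5 ω) : ∃ d : MvPolynomial (Fin 2) k, d ≠ 0 ∧
    algebraMap _ (FF k) d • z ∈ Submodule.span k (Set.range (gm ω)) := by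
  have hz : z ∈ Submodule.span (FF k) (Set.range (gm ω)) := by
    rw [span_mm]
    trivial
  induction hz using Submodule.span_induction with
  | mem z hz => exact ⟨1, one_ne_zero, by simpa using Submodule.subset_span hz⟩
  | zero => exact ⟨1, one_ne_zero, by simp⟩
  | add u v _ _ hu hv =>
    obtain ⟨d, hd, h1⟩ := hu
    obtain ⟨e, he, h2⟩ := hv
    refine ⟨d * e, mul_ne_zero hd he, ?_⟩
    rw [smul_add]
    refine Submodule.add_mem _ ?_ ?_
    · rw [mul_comm, map_mul, mul_smul]
      exact poly_smul ω e h1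
    · rw [map_mul, mul_smul]
      exact poly_smul ω d h2
  | smul c u _ hu =>
    obtain ⟨d, hd, h1⟩ := hu
    obtain ⟨p, q, hq, rfl⟩ := IsFractionRing.div_surjective (A := MvPolynomial (Fin 2) k) c
    have hq0 := nonZeroDivisors.ne_zero hq
    refine ⟨d * q, mul_ne_zero hd hq0, ?_⟩
    have hq1 : algebraMap _ (FF k) q ≠ 0 := fun h =>
      hq0 (IsFractionRing.injective _ (FF k) (by rw [h, map_zero]))
    rw [smul_smul, map_mul, mul_assoc, mul_div_cancel₀ _ hq1, mul_comm, mul_smul]
    exact poly_smul ω p h1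

theorem division (hw : ω ^ 5 = 1) (z : Gen k 5 ω) (hz : z ≠ 0) : IsUnit z := by
  haveI : Nontrivial (Gen k 5 ω) := ⟨⟨z, 0, hz⟩⟩
  haveI : NoZeroDivisors (Gen k 5 ω) := ⟨fun {u v} h => by
    by_contra hc
    push Not at hc
    obtain ⟨d, hd, h1⟩ := clear_den ω u
    obtain ⟨e, he, h2⟩ := clear_den ω v
    have inj : ∀ d : MvPolynomial (Fin 2) k, d ≠ 0 → algebraMap _ (FF k) d ≠ 0 := fun d hd h =>
      hd (IsFractionRing.injective _ (FF k) (by rw [h, map_zero]))
    rw [← Finsupp.range_linearCombination] at h1 h2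
    obtain ⟨f, hf⟩ := h1
    obtain ⟨g, hg⟩ := h2
    refine phi_mul ω hw f g ?_ ?_ ?_
    · rintro rfl
      exact smul_ne_zero (inj d hd) hc.1 (by rw [← hf, map_zero])
    · rintro rfl
      exact smul_ne_zero (inj e he) hc.2 (by rw [← hg, map_zero])
    · rw [hf, hg, smul_mul_smul_comm, h, smul_zero]⟩
  haveI : IsDomain (Gen k 5 ω) := NoZeroDivisors.to_isDomain _
  haveI : FiniteDimensional (FF k) (Gen k 5 ω) := fd
  exact FiniteDimensional.isUnit (FF k) hz

end Pool.Agent.H.MP_064e41_al
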